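import Pool.Agent.P8H73.KV.Stm

/-!
# Project KV: the divisor closed set (ADM) and the corollary (COR)
-/

set_option autoImplicit false

namespace Pool.Agent.P8H7.KV

open Finset Pool.Agent.P8H73.KV Pool.Agent.P8H73.GM

/-- ADM -/
theorem adm : S_ADM := by
  classical
  intro k R Y P0 P1 hk hY hYR hP0 hRP
  refine ⟨?_, ?_, ?_⟩
  · unfold SS
    rw [mem_filter, mem_Icc]
    refine ⟨⟨le_rfl, Nat.le_floor (by push_cast; linarith)⟩, squarefree_one, Nat.coprime_one_left k,
      Or.inl (by push_cast; exact hY)⟩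
  · intro m hm
    unfold SS at hm
    rw [mem_filter, mem_Icc] at hm
    refine ⟨hm.2.1, hm.2.2.1, ?_⟩
    exact (Nat.le_floor_iff (by linarith)).1 hm.1.2
  · intro m hm d hd
    unfold SS at hm ⊢
    rw [mem_filter, mem_Icc] at hm ⊢
    obtain ⟨⟨h1, h2⟩, h3, h4, h5⟩ := hm
    have hd0 : 0 < d := Nat.pos_of_dvd_of_pos hd h1
    have hdm : d ≤ m := Nat.le_of_dvd h1 hd
    refine ⟨⟨hd0, hdm.trans h2⟩, Squarefree.squarefree_of_dvd hd h3,
      Nat.Coprime.coprime_dvd_left hd h4, ?_⟩
    rcases h5 with h5 | ⟨p, hp, hp0, hp1, hpm⟩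
    · left
      exact le_trans (by exact_mod_cast hdm) h5
    · by_cases hpd : p ∣ d
      · exact Or.inr ⟨p, hp, hp0, hp1, hpd⟩
      · left
        have hc : Nat.Coprime d p := ((Nat.Prime.coprime_iff_not_dvd hp).2 hpd).symm
        have hdp : d * p ∣ m := Nat.Coprime.mul_dvd_of_dvd_of_dvd hc hd hpm
        have h6 : d * p ≤ m := Nat.le_of_dvd h1 hdp
        have h7 : (m : ℝ) ≤ R := (Nat.le_floor_iff (by linarith)).1 h2
        have h8 : (d : ℝ) * p ≤ P0 * Y := by
          have : ((d * p : ℕ) : ℝ) ≤ m := by exact_mod_cast h6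
          push_cast at this
          linarith
        by_contra hcon
        push Not at hcon
        have h9 : P0 * Y < p * d := by
          have : 0 < (p : ℝ) := by linarith
          nlinarith
        linarith

/-- COR -/
theorem cor : Pool.Agent.P8H73.KV.S_FIN → Pool.Agent.P8H73.KV.S_COR := by
  rintro ⟨c, C, H₀, hc, hC, hH₀, hfin⟩
  refine ⟨c / 2, √(c / (4 * C)), H₀, by positivity, by positivity, hH₀, ?_⟩
  intro k l x y hk hl hyx hH hHx hlog
  have h1 := hfin k l x y hk hl hyx hH hHx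
  have hk' : (1 : ℝ) ≤ k := by exact_mod_cast hk
  set H := y / k with hHdef
  have hH3 : 3 ≤ H := hH₀.trans hH
  have hy : 0 < y := by
    have : y = H * k := by rw [hHdef]; field_simp
    rw [this]
    positivity
  have hyk : H ≤ y := div_le_self hy.le hk'
  have hx3 : 3 ≤ x := by linarith
  have hL1 : 1 < Real.log H := by
    have h2 : Real.exp 1 < 3 := by
      have := Real.exp_one_lt_d9
      linarith
    have h3 : Real.log (Real.exp 1) < Real.log H := Real.log_lt_log (Real.exp_pos 1) (by linarith)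
    rwa [Real.log_exp] at h3
  have hLL : 0 < Real.log (Real.log H) := Real.log_pos hL1
  have hlx : 0 < Real.log x := Real.log_pos (by linarith)
  set L := Real.log H with hL
  set M := Real.log L with hM
  have hL0 : 0 < L := by linarith
  -- the main inequality
  have h2 : (Real.log x) ^ 2 * M ≤ c / (4 * C) * L ^ 3 := by
    have h3 : Real.log x * M ^ (1 / 2 : ℝ) ≤ √(c / (4 * C)) * L ^ (3 / 2 : ℝ) := by
      rwa [le_div_iff₀ (by positivity)] at hlog
    have h4 : (Real.log x * M ^ (1 / 2 : ℝ)) ^ 2 ≤ (√(c / (4 * C)) * L ^ (3 / 2 : ℝ)) ^ 2 :=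
      pow_le_pow_left₀ (by positivity) h3 2
    have h5 : (M ^ (1 / 2 : ℝ)) ^ 2 = M := by
      rw [← Real.sqrt_eq_rpow, Real.sq_sqrt hLL.le]
    have h6 : (L ^ (3 / 2 : ℝ)) ^ 2 = L ^ 3 := by
      rw [← Real.rpow_natCast, ← Real.rpow_mul hL0.le, ← Real.rpow_natCast]
      norm_num
    rw [mul_pow, mul_pow, h5, h6, Real.sq_sqrt (by positivity)] at h4
    exact h4
  have h7 : C * M / L < c / 2 * (L / Real.log x) ^ 2 := by
    rw [div_pow, mul_div_assoc', div_lt_div_iff₀ hL0 (by positivity)]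
    have h8 : C * ((Real.log x) ^ 2 * M) ≤ C * (c / (4 * C) * L ^ 3) :=
      mul_le_mul_of_nonneg_left h2 hC.le
    have h9 : C * (c / (4 * C) * L ^ 3) = c / 4 * L ^ 3 := by field_simp
    have h10 : 0 < L ^ 3 := by positivity
    nlinarith
  refine h1.trans_lt ?_
  have hφ : (0 : ℝ) < Nat.totient k := by exact_mod_cast Nat.totient_pos.2 hk
  apply div_lt_div_of_pos_right _ (by positivity)
  apply mul_lt_mul_of_pos_right _ hy
  linarith

end Pool.Agent.P8H7.KV
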