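import Pool.Agent.P8H73.KV.Stm

/-!
# Project KV: the final theorem (FIN)
-/

set_option autoImplicit false

namespace Pool.Agent.P8H7.KV

open Finset Filter Topology Pool.Agent.P8H73.KV Pool.Agent.P8H73.GM

/-- all conditions on the size of `L = log H` -/
lemma large (a b : ℝ) : ∃ L₀ : ℝ, 100 ≤ L₀ ∧ a ≤ L₀ ∧ ∀ L : ℝ, L₀ ≤ L → 1 ≤ Real.log L ∧ b ≤ Real.log L ∧
    2 * Real.log L + b ≤ L / 8 := by
  have h1 : ∀ᶠ L : ℝ in atTop, 1 ≤ Real.log L := Real.tendsto_log_atTop.eventually_ge_atTop 1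
  have h2 : ∀ᶠ L : ℝ in atTop, b ≤ Real.log L := Real.tendsto_log_atTop.eventually_ge_atTop b
  have h3 : ∀ᶠ L : ℝ in atTop, ‖Real.log L‖ ≤ 1 / 32 * ‖(id L : ℝ)‖ :=
    Real.isLittleO_log_id_atTop.bound (by norm_num)
  have h4 : ∀ᶠ L : ℝ in atTop, 100 ≤ L := eventually_ge_atTop 100
  have h5 : ∀ᶠ L : ℝ in atTop, 16 * b ≤ L := eventually_ge_atTop _
  have h6 : ∀ᶠ L : ℝ in atTop, a ≤ L := eventually_ge_atTop _
  obtain ⟨L₀, hL₀⟩ := eventually_atTop.1 (h1.and (h2.and (h3.and (h4.and (h5.and h6)))))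
  refine ⟨L₀, (hL₀ L₀ le_rfl).2.2.2.1, (hL₀ L₀ le_rfl).2.2.2.2.2, fun L hL => ?_⟩
  obtain ⟨g1, g2, g3, g4, g5, _⟩ := hL₀ L hL
  refine ⟨g1, g2, ?_⟩
  simp only [id] at g3
  rw [Real.norm_of_nonneg (by linarith), Real.norm_of_nonneg (by linarith)] at g3
  linarith

/-- the first case: the library theorem -/
lemma case1 {L M b c₂ C₁ A : ℝ} (hL : 100 ≤ L) (hM1 : 1 ≤ M) (hbM : b ≤ M)
    (hML : 2 * M + b ≤ L / 8) (hc₂ : 0 < c₂) (hC₁ : 0 < C₁) (hA : 0 < A)
    (hω : c₂ / A ^ 2 * L < C₁ * M) :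
    2 / (L - 2 * M - b) ≤ (2 - c₂ / 2 * (1 / A) ^ 2 + (5 * C₁ + 23) * M / L) / L := by
  have hL0 : 0 < L := by linarith
  have hpos : 0 < L - 2 * M - b := by linarith
  have h1 : c₂ / 2 * (1 / A) ^ 2 ≤ C₁ / 2 * M / L := by
    rw [le_div_iff₀ hL0]
    have : c₂ / 2 * (1 / A) ^ 2 * L = (c₂ / A ^ 2 * L) / 2 := by
      field_simp
    rw [this]
    linarith
  have h2 : 0 ≤ M / L := by positivity
  have h3 : 2 + 8 * (M / L) ≤ 2 - c₂ / 2 * (1 / A) ^ 2 + (5 * C₁ + 23) * M / L := by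
    have e1 : (5 * C₁ + 23) * M / L = C₁ / 2 * M / L + (9 / 2 * C₁ + 23) * (M / L) := by
      field_simp
      ring
    rw [e1]
    have e2 : 8 * (M / L) ≤ (9 / 2 * C₁ + 23) * (M / L) := by
      apply mul_le_mul_of_nonneg_right _ h2
      linarith
    linarith
  have h4 : 2 / (L - 2 * M - b) ≤ (2 + 8 * (M / L)) / L := by
    rw [div_le_div_iff₀ hpos hL0]
    have h5 : M / L * L = M := by field_simp
    have h6 : M / L * (2 * M + b) ≤ M / 8 := by
      have : M / L * (2 * M + b) ≤ M / L * (L / 8) := mul_le_mul_of_nonneg_left hML h2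
      have h7 : M / L * (L / 8) = M / 8 := by field_simp
      linarith
    nlinarith
  exact h4.trans (div_le_div_of_nonneg_right h3 hL0.le)

/-- the second case: real inequality -/
lemma case2 {L H g C₁ ω : ℝ} (hL : 100 ≤ L) (hH : H = Real.exp L) (hC₁ : 1 ≤ C₁)
    (hLC : 2 * C₁ ≤ L) (hω : 0 < ω) (hω1 : ω ≤ 1 / 100)
    (hg : 1 + ω / 2 - C₁ / L ≤ g) (hX : H ^ (1 - ω) ≤ H / L ^ 2) :
    (H + H ^ (1 - ω) + 2) / (L / 2 * g) + H ^ (1 - ω) + H ^ ((1 + ω) / 2) + 1 ≤
      (2 - ω / 2 + (4 * C₁ + 15) / L) * (H / L) := by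
  have hL0 : 0 < L := by linarith
  have hH0 : 0 < H := by rw [hH]; exact Real.exp_pos L
  have hq : C₁ / L ≤ 1 / 2 := by
    rw [div_le_div_iff₀ hL0 (by norm_num)]
    linarith
  have hq0 : 0 < C₁ / L := by positivity
  have hg0 : 0 < g := by linarith
  -- 1 / g
  have hinv : 1 / g ≤ 1 - ω / 4 + 2 * (C₁ / L) := by
    have h1 : 0 < 1 - ω / 4 + 2 * (C₁ / L) := by linarith
    rw [div_le_iff₀ hg0]
    have h2 : (1 - ω / 4 + 2 * (C₁ / L)) * (1 + ω / 2 - C₁ / L) ≤
        (1 - ω / 4 + 2 * (C₁ / L)) * g := mul_le_mul_of_nonneg_left hg h1.le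
    have h3 : 1 ≤ (1 - ω / 4 + 2 * (C₁ / L)) * (1 + ω / 2 - C₁ / L) := by
      set q := C₁ / L
      nlinarith [mul_pos hω hq0, mul_nonneg hq0.le (by linarith : (0 : ℝ) ≤ 1 / 2 - q)]
    linarith
  -- powers
  have hexp : L ^ 4 ≤ Real.exp L := by
    have h1 : L ≤ Real.exp (L / 4) := by
      have h2 : (Real.exp (L / 8)) ^ 2 = Real.exp (L / 4) := by
        rw [← Real.exp_nat_mul]
        congr 1
        push_cast
        ring
      rw [← h2]
      have h3 := Real.add_one_le_exp (L / 8)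
      have h4 : (L / 8 + 1) ^ 2 ≤ (Real.exp (L / 8)) ^ 2 := pow_le_pow_left₀ (by linarith) h3 2
      nlinarith
    have h5 : L ^ 4 ≤ (Real.exp (L / 4)) ^ 4 := pow_le_pow_left₀ hL0.le h1 4
    rw [← Real.exp_nat_mul] at h5
    convert h5 using 2
    push_cast
    ring
  have hR : H ^ ((1 + ω) / 2) ≤ H / L ^ 2 := by
    rw [le_div_iff₀ (by positivity)]
    have h1 : L ^ 2 ≤ H ^ ((1 - ω) / 2) := by
      have h0 : L ≤ Real.exp (L / 10) ^ 2 := by
        have h3 := Real.add_one_le_exp (L / 10)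
        have h4 : (L / 10 + 1) ^ 2 ≤ (Real.exp (L / 10)) ^ 2 := pow_le_pow_left₀ (by linarith) h3 2
        nlinarith
      have h2 : L ^ 2 ≤ (Real.exp (L / 10) ^ 2) ^ 2 := pow_le_pow_left₀ hL0.le h0 2
      have h3 : (Real.exp (L / 10) ^ 2) ^ 2 = Real.exp (L * (2 / 5)) := by
        rw [← pow_mul, ← Real.exp_nat_mul]
        congr 1
        push_cast
        ring
      rw [h3] at h2
      refine h2.trans ?_
      rw [hH, ← Real.exp_mul]
      apply Real.exp_le_exp.2
      apply mul_le_mul_of_nonneg_left _ hL0.le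
      linarith
    calc H ^ ((1 + ω) / 2) * L ^ 2 ≤ H ^ ((1 + ω) / 2) * H ^ ((1 - ω) / 2) := by
          apply mul_le_mul_of_nonneg_left h1 (by positivity)
      _ = H := by
          rw [← Real.rpow_add hH0]
          have : (1 + ω) / 2 + (1 - ω) / 2 = 1 := by ring
          rw [this, Real.rpow_one]
  have h1H : 1 ≤ H / L ^ 2 := by
    rw [le_div_iff₀ (by positivity), hH, one_mul]
    have : L ^ 2 ≤ L ^ 4 := pow_le_pow_right₀ (by linarith) (by norm_num)
    linarith
  -- the main term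
  set T := H / L ^ 2 with hT
  have hT0 : 0 < T := by positivity
  have hTL : T * L = H / L := by
    rw [hT]
    field_simp
  have hnum : H + H ^ (1 - ω) + 2 ≤ H + 3 * T := by linarith
  have hmain : (H + H ^ (1 - ω) + 2) / (L / 2 * g) ≤
      (2 / L) * ((H + 3 * T) * (1 - ω / 4 + 2 * (C₁ / L))) := by
    have e1 : (H + H ^ (1 - ω) + 2) / (L / 2 * g) = (2 / L) * ((H + H ^ (1 - ω) + 2) * (1 / g)) := by
      field_simp
    rw [e1]
    apply mul_le_mul_of_nonneg_left _ (by positivity)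
    apply mul_le_mul hnum hinv (by positivity) (by positivity)
  have hdiv : H / L = L * T := by rw [← hTL]; ring
  have hH2 : H = L ^ 2 * T := by rw [hT]; field_simp
  have hC1L : C₁ / L * L = C₁ := by field_simp
  have hfin : (2 / L) * ((H + 3 * T) * (1 - ω / 4 + 2 * (C₁ / L))) + 3 * T ≤
      (2 - ω / 2 + (4 * C₁ + 15) / L) * (H / L) := by
    have e1 : (2 / L) * ((H + 3 * T) * (1 - ω / 4 + 2 * (C₁ / L))) =
        (2 * L * T + 6 / L * T) * (1 - ω / 4 + 2 * (C₁ / L)) := by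
      rw [hH2]
      field_simp
      ring
    have e2 : (2 - ω / 2 + (4 * C₁ + 15) / L) * (H / L) =
        2 * L * T * (1 - ω / 4 + 2 * (C₁ / L)) + 15 * T := by
      rw [hdiv]
      field_simp
      ring
    rw [e1, e2]
    have e3 : 6 / L * T * (1 - ω / 4 + 2 * (C₁ / L)) ≤ 12 * T := by
      have h2 : 6 / L ≤ 6 := div_le_self (by norm_num) (by linarith)
      have h3 : 1 - ω / 4 + 2 * (C₁ / L) ≤ 2 := by linarith
      have h4 : 0 ≤ 1 - ω / 4 + 2 * (C₁ / L) := by linarith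
      have h5 : 6 / L * T ≤ 6 * T := mul_le_mul_of_nonneg_right h2 hT0.le
      calc 6 / L * T * (1 - ω / 4 + 2 * (C₁ / L)) ≤ 6 * T * 2 :=
            mul_le_mul h5 h3 h4 (by positivity)
        _ = 12 * T := by ring
    linarith
  linarith

/-- from the conclusion on the sieve to primes -/
lemma finish (hmaj : S_MAJ) {k : ℕ} {l : ℤ} {x y H L C₁ ω : ℝ} (hk : 1 ≤ k) (hyx : y ≤ x)
    (hHy : H = y / k) (hHL : H = Real.exp L) (hL : 100 ≤ L) (hC₁ : 2 ≤ C₁) (hLC : 2 * C₁ ≤ L)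
    (hω : 0 < ω) (hω1 : ω ≤ 1 / 100) (hωL : C₁ * Real.log L ≤ ω * L)
    (hcon : Concl C₁ H (x / H) ω k l) :
    (N x y k l : ℝ) ≤ (2 - ω / 2 + (4 * C₁ + 15) / L) * y / (Nat.totient k * L) := by
  have hL0 : 0 < L := by linarith
  have hH0 : 0 < H := by rw [hHL]; exact Real.exp_pos L
  have hlog : Real.log H = L := by rw [hHL, Real.log_exp]
  have hk0 : (0 : ℝ) < k := by exact_mod_cast hk
  have hφ : (0 : ℝ) < Nat.totient k := by exact_mod_cast Nat.totient_pos.2 hk
  have hφk : (Nat.totient k : ℝ) ≤ k := by exact_mod_cast Nat.totient_le k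
  have hM0 : 0 < Real.log L := Real.log_pos (by linarith)
  obtain ⟨S, hS, hGS, hErr⟩ := hcon
  have hX : H ^ (1 - ω) ≤ H / L ^ 2 := by
    rw [le_div_iff₀ (by positivity)]
    have h1 : L ^ 2 ≤ H ^ ω := by
      rw [hHL, ← Real.exp_mul]
      have h2 : L ^ 2 = Real.exp (2 * Real.log L) := by
        rw [two_mul, Real.exp_add, Real.exp_log hL0]
        ring
      rw [h2]
      apply Real.exp_le_exp.2
      nlinarith
    calc H ^ (1 - ω) * L ^ 2 ≤ H ^ (1 - ω) * H ^ ω :=
          mul_le_mul_of_nonneg_left h1 (by positivity)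
      _ = H := by
          rw [← Real.rpow_add hH0]
          have : 1 - ω + ω = 1 := by ring
          rw [this, Real.rpow_one]
  have hbig : L ^ 2 * 10000 ≤ H := by
    have h1 : L ≤ Real.exp (L / 4) := by
      have h2 : (Real.exp (L / 8)) ^ 2 = Real.exp (L / 4) := by
        rw [← Real.exp_nat_mul]
        congr 1
        push_cast
        ring
      rw [← h2]
      have h3 := Real.add_one_le_exp (L / 8)
      have h4 : (L / 8 + 1) ^ 2 ≤ (Real.exp (L / 8)) ^ 2 := pow_le_pow_left₀ (by linarith) h3 2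
      nlinarith
    have h5 : L ^ 4 ≤ (Real.exp (L / 4)) ^ 4 := pow_le_pow_left₀ hL0.le h1 4
    have h6 : (Real.exp (L / 4)) ^ 4 = H := by
      rw [← Real.exp_nat_mul, hHL]
      congr 1
      push_cast
      ring
    rw [h6] at h5
    have h7 : (10000 : ℝ) ≤ L ^ 2 := by nlinarith
    nlinarith
  have hLL : (10000 : ℝ) ≤ L ^ 2 := by nlinarith
  have hH8 : 100000000 ≤ H := by nlinarith
  have hX2 : H ^ (1 - ω) ≤ H / 10000 :=
    hX.trans (div_le_div_of_nonneg_left hH0.le (by norm_num) hLL)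
  have hX1 : 1 ≤ H ^ (1 - ω) := Real.one_le_rpow (by linarith) (by linarith)
  set Δ : ℕ := ⌈H ^ (1 - ω)⌉₊ with hΔ
  have hΔ0 : H ^ (1 - ω) ≤ (Δ : ℝ) := Nat.le_ceil _
  have hΔ1 : (Δ : ℝ) < H ^ (1 - ω) + 1 := Nat.ceil_lt_add_one (by positivity)
  have hΔ2 : 1 ≤ Δ := by
    have : (1 : ℝ) ≤ Δ := hX1.trans hΔ0
    exact_mod_cast this
  obtain ⟨c, L', hL', hcor, hN⟩ := hmaj k l x y (H ^ ((1 + ω) / 2)) Δ S hk hyx
    (by rw [← hHy]; linarith) hΔ2 (by rw [← hHy]; linarith) (by positivity) hS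
  rw [← hHy] at hL' hcor
  have hQH : x / H * H = x := by field_simp
  have hE := hErr c L' Δ hΔ0 (by linarith) (by linarith)
    (fun τ hτ => by rw [hQH]; exact hcor τ hτ)
  set g := 1 + ω / 2 - C₁ / L with hg
  have hq : C₁ / L ≤ 1 / 2 := by
    rw [div_le_div_iff₀ hL0 (by norm_num)]
    linarith
  have hg0 : 0 < g := by rw [hg]; linarith
  rw [hlog, ← hg] at hGS
  have hG0 : 0 < (Nat.totient k : ℝ) / k * (L / 2) * g := by positivity
  have hGS0 : 0 < GS S := hG0.trans_le hGS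
  have h1 : (Δ + L' : ℝ) / GS S ≤
      (k / Nat.totient k) * ((H + H ^ (1 - ω) + 2) / (L / 2 * g)) := by
    have e1 : (Δ + L' : ℝ) ≤ H + H ^ (1 - ω) + 2 := by linarith
    calc (Δ + L' : ℝ) / GS S ≤ (H + H ^ (1 - ω) + 2) / GS S :=
          div_le_div_of_nonneg_right e1 hGS0.le
      _ ≤ (H + H ^ (1 - ω) + 2) / ((Nat.totient k : ℝ) / k * (L / 2) * g) :=
          div_le_div_of_nonneg_left (by positivity) hG0 hGS
      _ = _ := by field_simp
  have hkφ : 1 ≤ (k : ℝ) / Nat.totient k := by rw [le_div_iff₀ hφ]; linarith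
  have h2 : H ^ (1 - ω) + H ^ ((1 + ω) / 2) + 1 ≤
      (k / Nat.totient k) * (H ^ (1 - ω) + H ^ ((1 + ω) / 2) + 1) := by
    have : 0 ≤ H ^ (1 - ω) + H ^ ((1 + ω) / 2) + 1 := by positivity
    nlinarith
  have h3 : H ^ ((1 + ω) / 2) / k ≤ H ^ ((1 + ω) / 2) :=
    div_le_self (by positivity) (by exact_mod_cast hk)
  have h4 : Err k l c L' Δ S ≤ H ^ (1 - ω) := (le_abs_self _).trans hE
  have h5 := case2 hL hHL (by linarith) hLC hω hω1 hg.ge hX
  have h6 : (N x y k l : ℝ) ≤ (k / Nat.totient k) * ((H + H ^ (1 - ω) + 2) / (L / 2 * g) +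
      H ^ (1 - ω) + H ^ ((1 + ω) / 2) + 1) := by
    have e1 : (k / Nat.totient k) * ((H + H ^ (1 - ω) + 2) / (L / 2 * g) +
      H ^ (1 - ω) + H ^ ((1 + ω) / 2) + 1) =
      (k / Nat.totient k) * ((H + H ^ (1 - ω) + 2) / (L / 2 * g)) +
      (k / Nat.totient k) * (H ^ (1 - ω) + H ^ ((1 + ω) / 2) + 1) := by ring
    rw [e1]
    linarith
  refine h6.trans ((mul_le_mul_of_nonneg_left h5 (by positivity)).trans (le_of_eq ?_))
  rw [hHy]
  field_simp

/-- FIN -/
theorem fin : S_EEA → S_EEB → S_MAJ → Pool.Agent.P8H73.GM.S_FIN → Pool.Agent.P8H73.KV.S_FIN := by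
  rintro ⟨ca, Ca, Ha, hca0, hca1, hCa, hHa, hA⟩ ⟨cb, Cb, Hb, hcb0, hcb1, hCb, hHb, hB⟩ hmaj
    ⟨cg, Cg, Hg, hcg, hCg, hHg, hgm⟩
  set c₂ := min ca cb with hc₂
  set C₁ := max (max Ca Cb) 2 with hC₁
  have hc₂0 : 0 < c₂ := lt_min hca0 hcb0
  have hc₂1 : c₂ ≤ 1 / 100 := (min_le_left _ _).trans hca1
  have hC₁2 : 2 ≤ C₁ := le_max_right _ _
  have hCaC : Ca ≤ C₁ := (le_max_left _ _).trans (le_max_left _ _)
  have hCbC : Cb ≤ C₁ := (le_max_right _ _).trans (le_max_left _ _)
  obtain ⟨L₀, h100, haL, hlarge⟩ := large (max (max (Real.log Ha) (Real.log Hb))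
    (max (Real.log Hg) (2 * C₁))) Cg
  refine ⟨c₂ / 2, 5 * C₁ + 23, Real.exp L₀, by positivity, by positivity, ?_, ?_⟩
  · have := Real.add_one_le_exp L₀
    linarith
  intro k l x y hk hl hyx hH hHx
  set H := y / k with hHdef
  have hH0 : 0 < H := (Real.exp_pos L₀).trans_le hH
  set L := Real.log H with hL
  have hLL₀ : L₀ ≤ L := by
    rw [hL, Real.le_log_iff_exp_le hH0]
    exact hH
  have hHL : H = Real.exp L := (Real.exp_log hH0).symm
  obtain ⟨hM1, hCgM, hML⟩ := hlarge L hLL₀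
  have hL100 : 100 ≤ L := h100.trans hLL₀
  have hL0 : 0 < L := by linarith
  have hLa : Real.log Ha ≤ L := (((le_max_left _ _).trans (le_max_left _ _)).trans haL).trans hLL₀
  have hLb : Real.log Hb ≤ L := (((le_max_right _ _).trans (le_max_left _ _)).trans haL).trans hLL₀
  have hLg : Real.log Hg ≤ L := (((le_max_left _ _).trans (le_max_right _ _)).trans haL).trans hLL₀
  have hLC : 2 * C₁ ≤ L := (((le_max_right _ _).trans (le_max_right _ _)).trans haL).trans hLL₀
  have hHa' : Ha ≤ H := (Real.log_le_log_iff (by linarith) hH0).1 hLa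
  have hHb' : Hb ≤ H := (Real.log_le_log_iff (by linarith) hH0).1 hLb
  have hHg' : Hg ≤ H := (Real.log_le_log_iff (by linarith) hH0).1 hLg
  have hk0 : (0 : ℝ) < k := by exact_mod_cast hk
  have hk1 : (1 : ℝ) ≤ k := by exact_mod_cast hk
  have hφ : (0 : ℝ) < Nat.totient k := by exact_mod_cast Nat.totient_pos.2 hk
  have hyH : y = H * k := by rw [hHdef]; field_simp
  have hy0 : 0 < y := by rw [hyH]; positivity
  have hx0 : 0 < x := hy0.trans_le hyx
  have hLx : L ≤ 3 / 4 * Real.log x := by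
    have := Real.log_le_log hH0 hHx
    rwa [Real.log_rpow hx0] at this
  have hlx : 0 < Real.log x := by linarith
  set A := Real.log x / L with hAdef
  have hA43 : 4 / 3 ≤ A := by
    rw [hAdef, le_div_iff₀ hL0]
    linarith
  have hA0 : 0 < A := by linarith
  have hAinv : L / Real.log x = 1 / A := by rw [hAdef]; field_simp
  have hAL : Real.log x = A * L := by rw [hAdef]; field_simp
  set M := Real.log L with hM
  rw [hAinv]
  by_cases hω : c₂ / A ^ 2 * L < C₁ * M
  · -- the library theorem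
    obtain ⟨h1, h2⟩ := hgm k l x y hk hyx hHg'
    rw [← hHdef, ← hL, ← hM] at h1 h2
    have hMk : 0 ≤ Mk k H := by
      unfold Mk
      apply Finset.sum_nonneg
      intro p hp
      have hp' := Nat.prime_of_mem_primeFactors (Finset.mem_filter.1 hp).1
      have : (1 : ℝ) ≤ p := by exact_mod_cast hp'.one_lt.le
      exact div_nonneg (Real.log_nonneg this) (by linarith)
    have hden : 0 < L - 2 * M - Cg := by linarith
    have hden2 : L - 2 * M - Cg ≤ L + cg * Mk k H - 2 * M - Cg := by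
      have := mul_nonneg hcg.le hMk
      linarith
    have h3 : 2 * y / (Nat.totient k * (L + cg * Mk k H - 2 * M - Cg)) ≤
        (y / Nat.totient k) * (2 / (L - 2 * M - Cg)) := by
      have e1 : (y / Nat.totient k) * (2 / (L - 2 * M - Cg)) =
          2 * y / (Nat.totient k * (L - 2 * M - Cg)) := by
        field_simp
      rw [e1]
      apply div_le_div_of_nonneg_left (by positivity) (by positivity)
      exact mul_le_mul_of_nonneg_left hden2 hφ.le
    have h4 := case1 hL100 hM1 hCgM hML hc₂0 (by linarith) hA0 hω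
    refine h2.trans (h3.trans ((mul_le_mul_of_nonneg_left h4 (by positivity)).trans (le_of_eq ?_)))
    field_simp
  · -- the sieve
    push Not at hω
    set ω := c₂ / A ^ 2 with hωdef
    have hω0 : 0 < ω := by positivity
    have hA1 : 1 ≤ A ^ 2 := by nlinarith
    have hωc : ω ≤ c₂ := by
      rw [hωdef]
      exact div_le_self hc₂0.le hA1
    have hω1 : ω ≤ 1 / 100 := hωc.trans hc₂1
    set Q := x / H with hQ
    have hQ0 : 0 < Q := by positivity
    have hkQ : (k : ℝ) ≤ Q := by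
      rw [hQ, le_div_iff₀ hH0, mul_comm, ← hyH]
      exact hyx
    have hlogQ : Real.log Q = (A - 1) * L := by
      rw [hQ, Real.log_div hx0.ne' hH0.ne', ← hL, hAL]
      ring
    set ρ := (1 + ω) / 2 * L with hρ
    have hρ0 : 0 < ρ := by positivity
    set v := 2 * (A - 1) / (1 + ω) with hv
    have hvρ : v * ρ = Real.log Q := by
      rw [hlogQ, hv, hρ]
      field_simp
    have hv0 : 1 / 2 ≤ v := by
      rw [hv, le_div_iff₀ (by linarith)]
      linarith
    have hvA : v ≤ 2 * (A - 1) := by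
      rw [hv]
      exact div_le_self (by linarith) (by linarith)
    set n := ⌊v + 1 / 2⌋₊ with hn
    have hn1 : (n : ℝ) ≤ v + 1 / 2 := Nat.floor_le (by linarith)
    have hn2 : v + 1 / 2 < n + 1 := Nat.lt_floor_add_one _
    have hn0 : 1 ≤ n := Nat.le_floor (by push_cast; linarith)
    have hM0 : 0 ≤ M := by linarith
    have hcon : Concl C₁ H Q ω k l := by
      have mono : ∀ C' : ℝ, C' ≤ C₁ → Concl C' H Q ω k l → Concl C₁ H Q ω k l := by
        rintro C' hC' ⟨S, h1, h2, h3⟩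
        refine ⟨S, h1, le_trans ?_ h2, h3⟩
        apply mul_le_mul_of_nonneg_left _ (by positivity)
        have : C' / Real.log H ≤ C₁ / Real.log H := div_le_div_of_nonneg_right hC' hL0.le
        linarith
      have hsA : ∀ s : ℕ, (2 * s : ℝ) ≤ v + 3 / 2 → ω * s ^ 2 ≤ c₂ := by
        intro s hs
        have h1 : (s : ℝ) ≤ A := by linarith
        have h2 : (s : ℝ) ^ 2 ≤ A ^ 2 := pow_le_pow_left₀ (Nat.cast_nonneg s) h1 2
        rw [hωdef, div_mul_eq_mul_div, div_le_iff₀ (by positivity)]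
        exact mul_le_mul_of_nonneg_left h2 hc₂0.le
      rcases Nat.even_or_odd' n with ⟨s, hs | hs⟩
      · -- even
        have hsn : (n : ℝ) = 2 * s := by rw [hs]; push_cast; ring
        apply mono Cb hCbC
        apply hB H Q ω k s l hHb' hk hkQ hl (by omega) hω0
          ((hsA s (by linarith)).trans (min_le_right _ _))
        · exact (mul_le_mul_of_nonneg_right hCbC hM0).trans hω
        · rw [← hρ, ← hvρ]
          exact mul_le_mul_of_nonneg_right (by linarith) hρ0.le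
        · rw [← hρ, ← hvρ]
          exact mul_le_mul_of_nonneg_right (by linarith) hρ0.le
      · -- odd
        have hsn : (n : ℝ) = 2 * s + 1 := by rw [hs]; push_cast; ring
        apply mono Ca hCaC
        apply hA H Q ω k (s + 1) l hHa' hk hkQ hl (by omega) hω0
          ((hsA (s + 1) (by push_cast; linarith)).trans (min_le_left _ _))
        · exact (mul_le_mul_of_nonneg_right hCaC hM0).trans hω
        · rw [← hρ, ← hvρ]
          push_cast
          exact mul_le_mul_of_nonneg_right (by linarith) hρ0.le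
        · rw [← hρ, ← hvρ]
          push_cast
          exact mul_le_mul_of_nonneg_right (by linarith) hρ0.le
    have hfin := finish hmaj hk hyx hHdef hHL hL100 hC₁2 hLC hω0 hω1 hω hcon
    refine hfin.trans ?_
    apply div_le_div_of_nonneg_right _ (by positivity)
    apply mul_le_mul_of_nonneg_right _ hy0.le
    have e1 : c₂ / 2 * (1 / A) ^ 2 = ω / 2 := by
      rw [hωdef]
      field_simp
    rw [e1]
    have e2 : (4 * C₁ + 15) / L ≤ (5 * C₁ + 23) * M / L := by
      apply div_le_div_of_nonneg_right _ hL0.le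
      nlinarith
    linarith

end Pool.Agent.P8H7.KV
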